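import Mathlib

set_option autoImplicit false
set_option maxRecDepth 100000

/-!
# MP_7d76f2_co: fractional zero forcing number versus fort number

A connected graph `G₀` with 11 vertices and 13 edges such that `Z*(G₀) = Z(G₀) = 2` and
`ft(G₀) = 1`.
-/

namespace Pool.Agent.Results.MP_7d76f2_co.IntersectingForts

open Finset

section Defs

variable {V : Type} [Fintype V] [DecidableEq V] (G : SimpleGraph V) [DecidableRel G.Adj]

/-- `F` is a fort: it is nonempty and no vertex outside `F` has exactly one neighbour in `F`. -/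
def IsFort (F : Finset V) : Prop :=
  F.Nonempty ∧ ∀ v, v ∉ F → (F.filter fun u => G.Adj v u).card ≠ 1

/-- `F` is a minimal fort. -/
def IsMinimalFort (F : Finset V) : Prop := IsFort G F ∧ ∀ F', F' ⊂ F → ¬ IsFort G F'

/-- The vertices which get filled when the colour change rule is applied as long as possible,
starting with exactly the vertices of `S` filled: a filled vertex `u` whose only unfilled
neighbour is `w` makes `w` filled. -/
inductive Filled (S : Finset V) : V → Prop
  | init (v : V) : v ∈ S → Filled S v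
  | force (u w : V) : Filled S u → G.Adj u w → (∀ x, G.Adj u x → x ≠ w → Filled S x) → Filled S w

/-- `S` is a zero forcing set. -/
def IsZeroForcing (S : Finset V) : Prop := ∀ v, Filled G S v

/-- The sizes of the zero forcing sets; `Z(G)` is the least one. -/
def zeroForcingSizes : Set ℕ := {k | ∃ S : Finset V, IsZeroForcing G S ∧ S.card = k}

/-- The numbers of members of the families of pairwise disjoint forts; `ft(G)` is the largest
one. -/
def fortPackingSizes : Set ℕ :=
  {k | ∃ A : Finset (Finset V), (∀ F ∈ A, IsFort G F) ∧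
    (∀ F ∈ A, ∀ F' ∈ A, F ≠ F' → Disjoint F F') ∧ A.card = k}

/-- The values of the feasible points of the linear program; `Z*(G)` is the least one. -/
def fractionalValues : Set ℝ :=
  {t | ∃ x : V → ℝ, (∀ v, 0 ≤ x v) ∧ (∀ F, IsMinimalFort G F → 1 ≤ ∑ v ∈ F, x v) ∧
    ∑ v, x v = t}

end Defs

section General

variable {V : Type} [Fintype V] [DecidableEq V] {G : SimpleGraph V} [DecidableRel G.Adj]

omit [Fintype V] in
lemma exists_minimal {F : Finset V} (hF : IsFort G F) : ∃ M ⊆ F, IsMinimalFort G M := by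
  induction F using Finset.strongInduction with
  | H F ih =>
    by_cases h : ∃ F', F' ⊂ F ∧ IsFort G F'
    · obtain ⟨F', h1, h2⟩ := h
      obtain ⟨M, hM, hM'⟩ := ih F' h1 h2
      exact ⟨M, hM.trans h1.subset, hM'⟩
    · push Not at h
      exact ⟨F, Subset.rfl, hF, h⟩

omit [Fintype V] in
/-- A fort disjoint from `S` never gets filled. -/
lemma not_filled {S F : Finset V} (hF : IsFort G F) (hS : Disjoint S F) {v : V}
    (hv : Filled G S v) : v ∉ F := by
  induction hv with
  | init v hv => exact fun h => Finset.disjoint_left.1 hS hv h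
  | force u w _ hadj _ ihu ihx =>
    intro hw
    refine hF.2 u ihu (Finset.card_eq_one.2 ⟨w, ?_⟩)
    ext x
    simp only [Finset.mem_filter, Finset.mem_singleton]
    constructor
    · rintro ⟨hx, hux⟩
      by_contra hne
      exact ihx x hux hne hx
    · rintro rfl
      exact ⟨hw, hadj⟩

omit [Fintype V] in
lemma clause {F : Finset V} (hF : IsFort G F) {v u : V} (hadj : G.Adj v u) (hv : v ∉ F)
    (hu : u ∈ F) : ∃ w, G.Adj v w ∧ w ≠ u ∧ w ∈ F := by
  by_contra hno
  push Not at hno
  refine hF.2 v hv (Finset.card_eq_one.2 ⟨u, ?_⟩)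
  ext x
  simp only [Finset.mem_filter, Finset.mem_singleton]
  constructor
  · rintro ⟨hx, hvx⟩
    by_contra hne
    exact hno x hvx hne hx
  · rintro rfl
    exact ⟨hu, hadj⟩

end General

/-- The edges of the graph. -/
def edges : List (Fin 11 × Fin 11) :=
  [(0, 1), (0, 2), (0, 3), (0, 4), (1, 4), (1, 6), (1, 9), (2, 5), (4, 7), (4, 10), (5, 7), (6, 8), (8, 10)]

/-- The graph. -/
def G₀ : SimpleGraph (Fin 11) where
  Adj a b := (a, b) ∈ edges ∨ (b, a) ∈ edges
  symm := ⟨fun _ _ h => h.symm⟩
  loopless := ⟨by decide⟩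

instance : DecidableRel G₀.Adj := fun a b =>
  inferInstanceAs (Decidable ((a, b) ∈ edges ∨ (b, a) ∈ edges))

/-- The neighbours of a vertex, as natural numbers. -/
def nbrs : ℕ → List ℕ
  | 0 => [1, 2, 3, 4]
  | 1 => [0, 4, 6, 9]
  | 2 => [0, 5]
  | 3 => [0]
  | 4 => [0, 1, 7, 10]
  | 5 => [2, 7]
  | 6 => [1, 8]
  | 7 => [4, 5]
  | 8 => [6, 10]
  | 9 => [1]
  | 10 => [4, 8]
  | _ => []

lemma mem_nbrs : ∀ v u : Fin 11, u.val ∈ nbrs v.val ↔ G₀.Adj v u := by decide +kernel

lemma nbrs_lt : ∀ v : Fin 11, ∀ u ∈ nbrs v.val, u < 11 := by decide +kernel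

/-- The minimal forts. -/
def listed : List (List ℕ) :=
  [[2, 4, 5, 6, 8],
   [2, 4, 6, 7, 8],
   [0, 2, 3, 7, 9],
   [0, 3, 5, 7, 9],
   [2, 4, 5, 6, 10],
   [2, 4, 6, 7, 10],
   [1, 3, 6, 9, 10],
   [1, 3, 8, 9, 10],
   [0, 3, 4, 5, 6, 8],
   [1, 2, 4, 5, 8, 9],
   [1, 2, 4, 7, 8, 9],
   [0, 3, 4, 5, 6, 10],
   [0, 2, 3, 6, 7, 10],
   [0, 3, 5, 6, 7, 10],
   [1, 2, 6, 7, 9, 10],
   [2, 3, 6, 7, 9, 10],
   [1, 2, 7, 8, 9, 10],
   [0, 1, 3, 4, 5, 8, 9]]

/-- The fort condition for the set of the binary digits of `m`, in clause form. -/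
def fortB (m : ℕ) : Bool :=
  (List.range 11).all fun v => m.testBit v ||
    (nbrs v).all fun u => !(m.testBit u) || (nbrs v).any fun w => w != u && m.testBit w

/-- One of the listed sets is contained in the set of the binary digits of `m`. -/
def conclB (m : ℕ) : Bool := listed.any fun L => L.all fun i => m.testBit i

theorem key : ∀ m < 2048, m ≠ 0 → fortB m = true → conclB m = true := by decide +kernel

lemma listed_lt : ∀ A ∈ listed, ∀ i ∈ A, i < 11 := by decide +kernel

lemma listed_inter : ∀ A ∈ listed, ∀ B ∈ listed, ∃ v ∈ A, v ∈ B := by decide +kernel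

/-- Every fort contains one of the listed forts. -/
lemma exists_listed {F : Finset (Fin 11)} (hF : IsFort G₀ F) :
    ∃ L ∈ listed, ∀ i : Fin 11, i.val ∈ L → i ∈ F := by
  set m := Nat.ofBits fun i : Fin 11 => decide (i ∈ F) with hm
  have hbit : ∀ i : Fin 11, m.testBit i.val = decide (i ∈ F) := by
    intro i
    rw [hm, Nat.testBit_ofBits_lt _ _ i.isLt]
  have hlt : m < 2048 := by
    have := Nat.ofBits_lt_two_pow fun i : Fin 11 => decide (i ∈ F)
    norm_num at this ⊢
    exact this
  have hne : m ≠ 0 := by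
    obtain ⟨x, hx⟩ := hF.1
    intro h0
    have := hbit x
    rw [h0] at this
    simp [hx] at this
  have hfort : fortB m = true := by
    unfold fortB
    rw [List.all_eq_true]
    intro v hv
    rw [List.mem_range] at hv
    have hbv := hbit ⟨v, hv⟩
    simp only at hbv
    rw [Bool.or_eq_true, hbv, decide_eq_true_eq]
    by_cases hvF : (⟨v, hv⟩ : Fin 11) ∈ F
    · exact Or.inl hvF
    · right
      rw [List.all_eq_true]
      intro u hu
      have hu11 := nbrs_lt ⟨v, hv⟩ u hu
      have hbu := hbit ⟨u, hu11⟩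
      simp only at hbu
      rw [Bool.or_eq_true, hbu]
      by_cases huF : (⟨u, hu11⟩ : Fin 11) ∈ F
      · right
        obtain ⟨w, hw1, hw2, hw3⟩ := clause hF (v := ⟨v, hv⟩) (u := ⟨u, hu11⟩)
          ((mem_nbrs ⟨v, hv⟩ ⟨u, hu11⟩).1 hu) hvF huF
        rw [List.any_eq_true]
        refine ⟨w.val, (mem_nbrs ⟨v, hv⟩ w).2 hw1, ?_⟩
        rw [Bool.and_eq_true, hbit w]
        refine ⟨?_, by simpa using hw3⟩
        rw [bne_iff_ne]
        intro h
        exact hw2 (Fin.ext h)
      · left
        simp [huF]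
  have hc := key m hlt hne hfort
  unfold conclB at hc
  rw [List.any_eq_true] at hc
  obtain ⟨L, hL, hall⟩ := hc
  refine ⟨L, hL, fun i hi => ?_⟩
  rw [List.all_eq_true] at hall
  have := hall _ hi
  rw [hbit i] at this
  simpa using this

lemma no_disjoint {F F' : Finset (Fin 11)} (h : IsFort G₀ F) (h' : IsFort G₀ F') :
    ¬ Disjoint F F' := by
  obtain ⟨L, hL, hLF⟩ := exists_listed h
  obtain ⟨L', hL', hLF'⟩ := exists_listed h'
  obtain ⟨v, hv, hv'⟩ := listed_inter L hL L' hL'
  have hlt := listed_lt L hL v hv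
  exact fun hd => Finset.disjoint_left.1 hd (hLF ⟨v, hlt⟩ hv) (hLF' ⟨v, hlt⟩ hv')

lemma fort1 : IsFort G₀ {2, 4, 5, 6, 8} := by
  refine ⟨⟨2, by decide⟩, ?_⟩
  decide +kernel

lemma fort2 : IsFort G₀ {0, 3, 5, 7, 9} := by
  refine ⟨⟨0, by decide⟩, ?_⟩
  decide +kernel

lemma fort3 : IsFort G₀ {2, 4, 6, 7, 10} := by
  refine ⟨⟨2, by decide⟩, ?_⟩
  decide +kernel

lemma fort4 : IsFort G₀ {1, 3, 8, 9, 10} := by
  refine ⟨⟨1, by decide⟩, ?_⟩
  decide +kernel

/-- `{2, 3}` is a zero forcing set. -/
lemma zf : IsZeroForcing G₀ {2, 3} := by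
  have f2 : Filled G₀ {2, 3} 2 := Filled.init _ (by decide)
  have f3 : Filled G₀ {2, 3} 3 := Filled.init _ (by decide)
  have f0 : Filled G₀ {2, 3} 0 := by
    refine Filled.force 3 0 f3 (by decide) ?_
    intro x hx hne
    fin_cases x <;> first | (exact absurd hx (by decide)) | (exact absurd rfl hne) | assumption
  have f5 : Filled G₀ {2, 3} 5 := by
    refine Filled.force 2 5 f2 (by decide) ?_
    intro x hx hne
    fin_cases x <;> first | (exact absurd hx (by decide)) | (exact absurd rfl hne) | assumption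
  have f7 : Filled G₀ {2, 3} 7 := by
    refine Filled.force 5 7 f5 (by decide) ?_
    intro x hx hne
    fin_cases x <;> first | (exact absurd hx (by decide)) | (exact absurd rfl hne) | assumption
  have f4 : Filled G₀ {2, 3} 4 := by
    refine Filled.force 7 4 f7 (by decide) ?_
    intro x hx hne
    fin_cases x <;> first | (exact absurd hx (by decide)) | (exact absurd rfl hne) | assumption
  have f1 : Filled G₀ {2, 3} 1 := by
    refine Filled.force 0 1 f0 (by decide) ?_
    intro x hx hne
    fin_cases x <;> first | (exact absurd hx (by decide)) | (exact absurd rfl hne) | assumption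
  have f10 : Filled G₀ {2, 3} 10 := by
    refine Filled.force 4 10 f4 (by decide) ?_
    intro x hx hne
    fin_cases x <;> first | (exact absurd hx (by decide)) | (exact absurd rfl hne) | assumption
  have f8 : Filled G₀ {2, 3} 8 := by
    refine Filled.force 10 8 f10 (by decide) ?_
    intro x hx hne
    fin_cases x <;> first | (exact absurd hx (by decide)) | (exact absurd rfl hne) | assumption
  have f6 : Filled G₀ {2, 3} 6 := by
    refine Filled.force 8 6 f8 (by decide) ?_
    intro x hx hne
    fin_cases x <;> first | (exact absurd hx (by decide)) | (exact absurd rfl hne) | assumption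
  have f9 : Filled G₀ {2, 3} 9 := by
    refine Filled.force 1 9 f1 (by decide) ?_
    intro x hx hne
    fin_cases x <;> first | (exact absurd hx (by decide)) | (exact absurd rfl hne) | assumption
  intro v
  fin_cases v <;> assumption

/-- Every feasible point has value at least `2`: four forts cover each vertex at most twice. -/
lemma two_le {x : Fin 11 → ℝ} (hx : ∀ v, 0 ≤ x v)
    (hF : ∀ F, IsMinimalFort G₀ F → 1 ≤ ∑ v ∈ F, x v) : 2 ≤ ∑ v, x v := by
  have hfort : ∀ F, IsFort G₀ F → 1 ≤ ∑ v ∈ F, x v := by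
    intro F h
    obtain ⟨M, hM, hM'⟩ := exists_minimal h
    exact (hF M hM').trans (Finset.sum_le_sum_of_subset_of_nonneg hM fun i _ _ => hx i)
  have h1 := hfort _ fort1
  have h2 := hfort _ fort2
  have h3 := hfort _ fort3
  have h4 := hfort _ fort4
  have e : ∑ v, x v = x 0 + x 1 + x 2 + x 3 + x 4 + x 5 + x 6 + x 7 + x 8 + x 9 + x 10 := by
    simp [Fin.sum_univ_succ]
    ring
  have s1 : ∑ v ∈ ({2, 4, 5, 6, 8} : Finset (Fin 11)), x v = x 2 + (x 4 + (x 5 + (x 6 + x 8))) := by
    rw [Finset.sum_insert (by decide), Finset.sum_insert (by decide),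
      Finset.sum_insert (by decide), Finset.sum_insert (by decide), Finset.sum_singleton]
  have s2 : ∑ v ∈ ({0, 3, 5, 7, 9} : Finset (Fin 11)), x v = x 0 + (x 3 + (x 5 + (x 7 + x 9))) := by
    rw [Finset.sum_insert (by decide), Finset.sum_insert (by decide),
      Finset.sum_insert (by decide), Finset.sum_insert (by decide), Finset.sum_singleton]
  have s3 : ∑ v ∈ ({2, 4, 6, 7, 10} : Finset (Fin 11)), x v =
      x 2 + (x 4 + (x 6 + (x 7 + x 10))) := by
    rw [Finset.sum_insert (by decide), Finset.sum_insert (by decide),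
      Finset.sum_insert (by decide), Finset.sum_insert (by decide), Finset.sum_singleton]
  have s4 : ∑ v ∈ ({1, 3, 8, 9, 10} : Finset (Fin 11)), x v =
      x 1 + (x 3 + (x 8 + (x 9 + x 10))) := by
    rw [Finset.sum_insert (by decide), Finset.sum_insert (by decide),
      Finset.sum_insert (by decide), Finset.sum_insert (by decide), Finset.sum_singleton]
  rw [s1] at h1
  rw [s2] at h2
  rw [s3] at h3
  rw [s4] at h4
  rw [e]
  have := hx 0
  have := hx 1
  linarith

/-- The indicator of a zero forcing set is feasible. -/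
lemma indicator_feasible {S : Finset (Fin 11)} (hS : IsZeroForcing G₀ S) (F : Finset (Fin 11))
    (hF : IsFort G₀ F) : (1 : ℝ) ≤ ∑ v ∈ F, if v ∈ S then (1 : ℝ) else 0 := by
  have hnd : ¬ Disjoint S F := by
    intro hd
    obtain ⟨v, hv⟩ := hF.1
    exact not_filled hF hd (hS v) hv
  obtain ⟨v, hvS, hvF⟩ := Finset.not_disjoint_iff.1 hnd
  calc (1 : ℝ) = if v ∈ S then (1 : ℝ) else 0 := by rw [if_pos hvS]
    _ ≤ ∑ v ∈ F, if v ∈ S then (1 : ℝ) else 0 :=
        Finset.single_le_sum (f := fun v => if v ∈ S then (1 : ℝ) else 0)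
          (fun i _ => by split_ifs <;> norm_num) hvF

/-- **Theorem.** There is a connected graph `G` on 11 vertices with `Z(G) = 2`, `Z*(G) = 2` and
`ft(G) = 1`. -/
theorem result : ∃ (G : SimpleGraph (Fin 11)) (_ : DecidableRel G.Adj), G.Connected ∧
    IsLeast (zeroForcingSizes G) 2 ∧ IsLeast (fractionalValues G) 2 ∧
    IsGreatest (fortPackingSizes G) 1 := by
  refine ⟨G₀, inferInstance, ?_, ?_, ?_, ?_⟩
  · rw [SimpleGraph.connected_iff_exists_forall_reachable]
    refine ⟨0, ?_⟩
    have e : ∀ a b : Fin 11, G₀.Adj a b → G₀.Reachable a b := fun a b h => h.reachable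
    have r1 := e 0 1 (by decide)
    have r2 := e 0 2 (by decide)
    have r3 := e 0 3 (by decide)
    have r4 := e 0 4 (by decide)
    have r6 := r1.trans (e 1 6 (by decide))
    have r9 := r1.trans (e 1 9 (by decide))
    have r5 := r2.trans (e 2 5 (by decide))
    have r7 := r4.trans (e 4 7 (by decide))
    have r10 := r4.trans (e 4 10 (by decide))
    have r8 := r6.trans (e 6 8 (by decide))
    have r0 : G₀.Reachable 0 0 := SimpleGraph.Reachable.refl _
    intro w
    fin_cases w <;> assumption
  · refine ⟨⟨{2, 3}, zf, by decide⟩, ?_⟩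
    rintro k ⟨S, hS, rfl⟩
    have h := two_le (x := fun v => if v ∈ S then (1 : ℝ) else 0)
      (fun v => by split_ifs <;> norm_num)
      (fun F hF => indicator_feasible hS F hF.1)
    rw [Finset.sum_ite_mem, Finset.univ_inter, Finset.sum_const, nsmul_eq_mul, mul_one] at h
    exact_mod_cast h
  · refine ⟨⟨fun v => if v ∈ ({2, 3} : Finset (Fin 11)) then 1 else 0,
      fun v => by dsimp only; split_ifs <;> norm_num,
      fun F hF => indicator_feasible zf F hF.1, ?_⟩, ?_⟩
    · rw [Finset.sum_ite_mem, Finset.univ_inter, Finset.sum_const, nsmul_eq_mul, mul_one]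
      have : ({2, 3} : Finset (Fin 11)).card = 2 := by decide
      rw [this]
      norm_num
    · rintro t ⟨x, hx, hF, rfl⟩
      exact two_le hx hF
  · refine ⟨⟨{{2, 4, 5, 6, 8}}, ?_, ?_, by simp⟩, ?_⟩
    · intro F hF
      rw [Finset.mem_singleton.1 hF]
      exact fort1
    · intro F hF F' hF' hne
      rw [Finset.mem_singleton.1 hF, Finset.mem_singleton.1 hF'] at hne
      exact absurd rfl hne
    · rintro k ⟨A, hA, hd, rfl⟩
      rw [Finset.card_le_one]
      intro F hF F' hF'
      by_contra hne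
      exact no_disjoint (hA F hF) (hA F' hF') (hd F hF F' hF' hne)

end Pool.Agent.Results.MP_7d76f2_co.IntersectingForts
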